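import Mathlib

set_option autoImplicit false

open Polynomial Filter Topology Finset

namespace Pool.Agent.Results.MP_543a09_nt.VisibleDensity

/-! ### bracketing -/

/-- the quadratic-type correction: `P - A (X + c)^d` has degree `d - 1` with positive leading
coefficient when `c` is a bit smaller than the centre. -/
lemma eventually_gt (P : ℝ[X]) (d : ℕ) (hd : P.natDegree = d) (hd2 : 2 ≤ d) (c : ℝ)
    (hc : 0 < P.coeff (d - 1) - P.leadingCoeff * (d * c)) :
    ∀ᶠ x : ℝ in atTop, P.leadingCoeff * (x + c) ^ d < P.eval x := by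
  set Q : ℝ[X] := P - C P.leadingCoeff * (X + C c) ^ d with hQ
  have hcoeff : ∀ n, Q.coeff n = P.coeff n - P.leadingCoeff * (c ^ (d - n) * (d.choose n : ℝ)) := by
    intro n
    rw [hQ, coeff_sub, coeff_C_mul, coeff_X_add_C_pow]
  have hle : Q.natDegree ≤ d - 1 := by
    rw [natDegree_le_iff_coeff_eq_zero]
    intro n hn
    rw [hcoeff]
    rcases Nat.lt_or_ge d n with h | h
    · rw [coeff_eq_zero_of_natDegree_lt (by omega), Nat.choose_eq_zero_of_lt h]; simp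
    · have : n = d := by omega
      subst this
      have : P.coeff n = P.leadingCoeff := by rw [leadingCoeff, hd]
      rw [this]; simp
  have hlead : Q.coeff (d - 1) = P.coeff (d - 1) - P.leadingCoeff * (d * c) := by
    rw [hcoeff]
    have h1 : d - (d - 1) = 1 := by omega
    have h2 : d.choose (d - 1) = d := by
      rw [← Nat.choose_symm (by omega : d - 1 ≤ d), h1, Nat.choose_one_right]
    rw [h1, h2, pow_one]; ring
  have hnat : Q.natDegree = d - 1 :=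
    natDegree_eq_of_le_of_coeff_ne_zero hle (by rw [hlead]; exact hc.ne')
  have hdeg : 0 < Q.degree := by
    rw [← natDegree_pos_iff_degree_pos, hnat]; omega
  have hlc : 0 ≤ Q.leadingCoeff := by
    rw [leadingCoeff, hnat, hlead]; exact hc.le
  have ht := Q.tendsto_atTop_of_leadingCoeff_nonneg hdeg hlc
  filter_upwards [ht.eventually_gt_atTop 0] with x hx
  have : Q.eval x = P.eval x - P.leadingCoeff * (x + c) ^ d := by
    rw [hQ]; simp
  rw [this] at hx
  linarith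

lemma eventually_lt (P : ℝ[X]) (d : ℕ) (hd : P.natDegree = d) (hd2 : 2 ≤ d) (c : ℝ)
    (hc : P.coeff (d - 1) - P.leadingCoeff * (d * c) < 0) :
    ∀ᶠ x : ℝ in atTop, P.eval x < P.leadingCoeff * (x + c) ^ d := by
  have h := eventually_gt (-P) d (by rw [natDegree_neg, hd]) hd2 c
    (by rw [coeff_neg, leadingCoeff_neg]; linarith)
  filter_upwards [h] with x hx
  rw [leadingCoeff_neg, eval_neg] at hx
  linarith

/-! ### the set-up for an integer polynomial -/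

variable {F : ℤ[X]}

lemma isRoot_map {z : ℂ} : (F.map (Int.castRingHom ℂ)).IsRoot z ↔ aeval z F = 0 := by
  rw [IsRoot.def, eval_map, aeval_def, algebraMap_int_eq]

lemma two_le (hpos : 0 < F.leadingCoeff) (hroots : ∃ z w : ℂ, z ≠ w ∧ aeval z F = 0 ∧ aeval w F = 0) :
    2 ≤ F.natDegree := by
  obtain ⟨z, w, hne, hz, hw⟩ := hroots
  have hF : F ≠ 0 := by rintro rfl; simp at hpos
  have hm : F.map (Int.castRingHom ℂ) ≠ 0 := (Polynomial.map_ne_zero_iff Int.cast_injective).mpr hF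
  have hsub : ({z, w} : Finset ℂ) ⊆ (F.map (Int.castRingHom ℂ)).roots.toFinset := by
    intro x hx
    rw [Finset.mem_insert, Finset.mem_singleton] at hx
    rw [Multiset.mem_toFinset, mem_roots hm, isRoot_map]
    rcases hx with rfl | rfl
    · exact hz
    · exact hw
  have h1 := Finset.card_le_card hsub
  rw [Finset.card_pair hne] at h1
  have h2 := Multiset.toFinset_card_le (F.map (Int.castRingHom ℂ)).roots
  have h3 := card_roots' (F.map (Int.castRingHom ℂ))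
  have h4 : (F.map (Int.castRingHom ℂ)).natDegree ≤ F.natDegree := natDegree_map_le
  omega

/-- real version -/
noncomputable def P (F : ℤ[X]) : ℝ[X] := F.map (Int.castRingHom ℝ)

lemma P_natDegree : (P F).natDegree = F.natDegree :=
  natDegree_map_eq_of_injective Int.cast_injective F

lemma P_lc : (P F).leadingCoeff = (F.leadingCoeff : ℝ) := by
  unfold P
  rw [leadingCoeff_map_of_injective Int.cast_injective]; rfl

lemma P_eval (a : ℕ) : (P F).eval (a : ℝ) = ((F.eval (a : ℤ) : ℤ) : ℝ) := by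
  unfold P
  rw [show ((a : ℕ) : ℝ) = (Int.castRingHom ℝ) (a : ℤ) by simp, eval_map, eval₂_at_apply]
  rfl

/-- the centre -/
noncomputable def b (F : ℤ[X]) : ℝ :=
  (F.coeff (F.natDegree - 1) : ℝ) / ((F.natDegree : ℝ) * (F.leadingCoeff : ℝ))

lemma bracket (hpos : 0 < F.leadingCoeff) (hd : 2 ≤ F.natDegree) (δ : ℝ) (hδ : 0 < δ) :
    ∀ᶠ x : ℝ in atTop, (F.leadingCoeff : ℝ) * (x + (b F - δ)) ^ F.natDegree < (P F).eval x ∧
      (P F).eval x < (F.leadingCoeff : ℝ) * (x + (b F + δ)) ^ F.natDegree := by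
  have hA : (0 : ℝ) < F.leadingCoeff := by exact_mod_cast hpos
  have hdr : (0 : ℝ) < F.natDegree := by exact_mod_cast (by omega : 0 < F.natDegree)
  have hco : (P F).coeff (F.natDegree - 1) = (F.coeff (F.natDegree - 1) : ℝ) := by
    unfold P; rw [coeff_map]; rfl
  have hb : (F.leadingCoeff : ℝ) * (F.natDegree * b F) = (F.coeff (F.natDegree - 1) : ℝ) := by
    unfold b; field_simp
  have h1 := eventually_gt (P F) F.natDegree P_natDegree hd (b F - δ) (by
    rw [hco, P_lc]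
    have : (F.leadingCoeff : ℝ) * (F.natDegree * (b F - δ))
      = (F.leadingCoeff : ℝ) * (F.natDegree * b F) - F.leadingCoeff * F.natDegree * δ := by ring
    rw [this, hb]
    have : 0 < (F.leadingCoeff : ℝ) * F.natDegree * δ := by positivity
    linarith)
  have h2 := eventually_lt (P F) F.natDegree P_natDegree hd (b F + δ) (by
    rw [hco, P_lc]
    have : (F.leadingCoeff : ℝ) * (F.natDegree * (b F + δ))
      = (F.leadingCoeff : ℝ) * (F.natDegree * b F) + F.leadingCoeff * F.natDegree * δ := by ring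
    rw [this, hb]
    have : 0 < (F.leadingCoeff : ℝ) * F.natDegree * δ := by positivity
    linarith)
  filter_upwards [h1, h2] with x hx1 hx2
  rw [P_lc] at hx1 hx2
  exact ⟨hx1, hx2⟩

lemma tendsto_P (hpos : 0 < F.leadingCoeff) (hd : 2 ≤ F.natDegree) :
    Tendsto (fun x : ℝ => (P F).eval x) atTop atTop := by
  apply Polynomial.tendsto_atTop_of_leadingCoeff_nonneg
  · rw [← natDegree_pos_iff_degree_pos, P_natDegree]; omega
  · rw [P_lc]; exact_mod_cast hpos.le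

lemma tendsto_nat (hpos : 0 < F.leadingCoeff) (hd : 2 ≤ F.natDegree) :
    Tendsto (fun a : ℕ => F.eval (a : ℤ)) atTop atTop := by
  have h1 := (tendsto_P hpos hd).comp tendsto_natCast_atTop_atTop
  rw [tendsto_atTop_atTop] at h1 ⊢
  intro c
  obtain ⟨i, hi⟩ := h1 c
  refine ⟨i, fun a ha => ?_⟩
  have := hi a ha
  simp only [Function.comp_apply, P_eval] at this
  exact_mod_cast this

/-- `F` is eventually larger than all previous values -/
lemma eventually_record (hpos : 0 < F.leadingCoeff) (hd : 2 ≤ F.natDegree) :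
    ∃ a₁ : ℕ, ∀ a, a₁ ≤ a → 0 < F.eval (a : ℤ) ∧ ∀ u : ℕ, u < a → F.eval (u : ℤ) < F.eval (a : ℤ) := by
  -- eventually increasing
  have hinc : ∃ x₀ : ℕ, ∀ x : ℕ, x₀ ≤ x → F.eval (x : ℤ) < F.eval ((x + 1 : ℕ) : ℤ) := by
    have hA : (0 : ℝ) < F.leadingCoeff := by exact_mod_cast hpos
    have hb := bracket hpos hd (1 / 4) (by norm_num)
    have hb' := (tendsto_natCast_atTop_atTop (R := ℝ)).eventually hb
    have hb'' : ∀ᶠ x : ℕ in atTop, (0 : ℝ) < (x : ℝ) + (b F + 1 / 4) :=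
      (tendsto_atTop_add_const_right _ _ tendsto_natCast_atTop_atTop).eventually_gt_atTop 0
    obtain ⟨x₀, hx₀⟩ := (hb'.and hb'').exists_forall_of_atTop
    refine ⟨x₀, fun x hx => ?_⟩
    have h1 := (hx₀ x hx).1.2
    have h2 := (hx₀ (x + 1) (by omega)).1.1
    have h3 := (hx₀ x hx).2
    have h4 : (F.leadingCoeff : ℝ) * ((x : ℝ) + (b F + 1 / 4)) ^ F.natDegree ≤
        (F.leadingCoeff : ℝ) * (((x + 1 : ℕ) : ℝ) + (b F - 1 / 4)) ^ F.natDegree := by
      apply mul_le_mul_of_nonneg_left _ hA.le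
      apply pow_le_pow_left₀ h3.le
      push_cast; linarith
    rw [P_eval] at h1 h2
    have : ((F.eval (x : ℤ) : ℤ) : ℝ) < ((F.eval ((x + 1 : ℕ) : ℤ) : ℤ) : ℝ) := by
      linarith
    exact_mod_cast this
  obtain ⟨x₀, hx₀⟩ := hinc
  obtain ⟨M, hM⟩ : ∃ M : ℤ, ∀ u : ℕ, u ≤ x₀ → F.eval (u : ℤ) ≤ M := by
    refine ⟨∑ u ∈ range (x₀ + 1), |F.eval (u : ℤ)|, fun u hu => ?_⟩
    exact (le_abs_self _).trans (Finset.single_le_sum (f := fun u : ℕ => |F.eval (u : ℤ)|)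
      (fun i _ => abs_nonneg _) (Finset.mem_range.mpr (by omega)))
  have hev := (tendsto_nat hpos hd).eventually_gt_atTop (max M 0)
  obtain ⟨a₂, ha₂⟩ := hev.exists_forall_of_atTop
  have hmono : ∀ n u : ℕ, x₀ ≤ u → F.eval (u : ℤ) < F.eval ((u + (n + 1) : ℕ) : ℤ) := by
    intro n
    induction n with
    | zero => intro u hu; exact hx₀ u hu
    | succ n ih =>
      intro u hu
      have h1 := ih u hu
      have h2 := hx₀ (u + (n + 1)) (by omega)
      have h3 : u + (n + 1) + 1 = u + (n + 1 + 1) := by ring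
      rw [h3] at h2
      exact h1.trans h2
  refine ⟨max a₂ x₀, fun a ha => ?_⟩
  have ha2 := ha₂ a (le_trans (le_max_left _ _) ha)
  have hax : x₀ ≤ a := le_trans (le_max_right _ _) ha
  refine ⟨lt_of_le_of_lt (le_max_right _ _) ha2, fun u hu => ?_⟩
  rcases Nat.lt_or_ge x₀ u with h | h
  · obtain ⟨n, hn⟩ : ∃ n, a = u + (n + 1) := ⟨a - u - 1, by omega⟩
    rw [hn]
    exact hmono n u h.le
  · exact lt_of_le_of_lt ((hM u h).trans (le_max_left _ _)) ha2

/-- the ratio -/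
noncomputable def rho (F : ℤ[X]) (k l : ℕ) : ℝ := ((k : ℝ) / l) ^ ((1 : ℝ) / F.natDegree)

lemma rho_pow (hd : 2 ≤ F.natDegree) (k l : ℕ) : rho F k l ^ F.natDegree = (k : ℝ) / l := by
  unfold rho
  rw [one_div]
  exact Real.rpow_inv_natCast_pow (by positivity) (by omega)

lemma rho_pos (k l : ℕ) (hk : 0 < k) (hl : 0 < l) : 0 < rho F k l := by
  unfold rho; positivity

lemma rho_lt (hd : 2 ≤ F.natDegree) (k l : ℕ) (hkl : k < l) : rho F k l < 1 := by
  unfold rho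
  have hl : (0 : ℝ) < l := by exact_mod_cast (by omega : 0 < l)
  apply Real.rpow_lt_one (by positivity)
  · rw [div_lt_one hl]; exact_mod_cast hkl
  · positivity

/-- solutions of `l F(u) = k F(a)` satisfy `u ≈ ρ a + (ρ - 1) b` -/
lemma approx (hpos : 0 < F.leadingCoeff) (hd : 2 ≤ F.natDegree) (k l : ℕ) (hk : 0 < k) (hkl : k < l)
    (δ : ℝ) (hδ : 0 < δ) : ∃ a₀ : ℕ, ∀ a u : ℕ, a₀ ≤ a →
      (l : ℤ) * F.eval (u : ℤ) = (k : ℤ) * F.eval (a : ℤ) →
      |(u : ℝ) + b F - rho F k l * (a + b F)| < 2 * δ := by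
  have hA : (0 : ℝ) < F.leadingCoeff := by exact_mod_cast hpos
  have hl : (0 : ℝ) < l := by exact_mod_cast (by omega : 0 < l)
  have hkr : (0 : ℝ) < k := by exact_mod_cast hk
  have hb := (tendsto_natCast_atTop_atTop (R := ℝ)).eventually (bracket hpos hd δ hδ)
  have hb' : ∀ᶠ x : ℕ in atTop, (0 : ℝ) < (x : ℝ) + (b F - δ) :=
    (tendsto_atTop_add_const_right _ _ tendsto_natCast_atTop_atTop).eventually_gt_atTop 0
  obtain ⟨x₀, hx₀⟩ := (hb.and hb').exists_forall_of_atTop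
  -- `u` is large too
  obtain ⟨M, hM⟩ : ∃ M : ℤ, ∀ u : ℕ, u < x₀ → (l : ℤ) * F.eval (u : ℤ) ≤ M := by
    refine ⟨∑ u ∈ range x₀, |(l : ℤ) * F.eval (u : ℤ)|, fun u hu => ?_⟩
    exact (le_abs_self _).trans (Finset.single_le_sum (f := fun u : ℕ => |(l : ℤ) * F.eval (u : ℤ)|)
      (fun i _ => abs_nonneg _) (Finset.mem_range.mpr (by omega)))
  have hev := (tendsto_nat hpos hd).eventually_gt_atTop (max M 0)
  obtain ⟨a₂, ha₂⟩ := hev.exists_forall_of_atTop
  refine ⟨max a₂ x₀, fun a u ha heq => ?_⟩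
  have hau := ha₂ a (le_trans (le_max_left _ _) ha)
  have hax : x₀ ≤ a := le_trans (le_max_right _ _) ha
  have hu : x₀ ≤ u := by
    by_contra hlt
    push Not at hlt
    have h1 := hM u hlt
    rw [heq] at h1
    have h2 : M < F.eval (a : ℤ) := lt_of_le_of_lt (le_max_left _ _) hau
    have h3 : 0 < F.eval (a : ℤ) := lt_of_le_of_lt (le_max_right _ _) hau
    have h4 : F.eval (a : ℤ) ≤ (k : ℤ) * F.eval (a : ℤ) := by
      have : (1 : ℤ) ≤ k := by exact_mod_cast hk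
      nlinarith
    linarith
  obtain ⟨⟨ha1, ha2⟩, ha3⟩ := hx₀ a hax
  obtain ⟨⟨hu1, hu2⟩, hu3⟩ := hx₀ u hu
  rw [P_eval] at ha1 ha2 hu1 hu2
  have heq' : (l : ℝ) * ((F.eval (u : ℤ) : ℤ) : ℝ) = (k : ℝ) * ((F.eval (a : ℤ) : ℤ) : ℝ) := by
    exact_mod_cast heq
  have hρ := rho_pow hd k l (F := F)
  have hρ0 := rho_pos k l hk (by omega) (F := F)
  have hρ1 := rho_lt hd k l hkl (F := F)
  set ρ := rho F k l with hρdef
  have hFu : ((F.eval (u : ℤ) : ℤ) : ℝ) = ρ ^ F.natDegree * ((F.eval (a : ℤ) : ℤ) : ℝ) := by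
    rw [hρ]; field_simp; linarith
  have hρd : 0 < ρ ^ F.natDegree := by positivity
  have hd0 : F.natDegree ≠ 0 := by omega
  have e1 : (u : ℝ) + (b F - δ) < ρ * (a + (b F + δ)) := by
    have h1 : (F.leadingCoeff : ℝ) * ((u : ℝ) + (b F - δ)) ^ F.natDegree <
        F.leadingCoeff * (ρ * (a + (b F + δ))) ^ F.natDegree := by
      calc (F.leadingCoeff : ℝ) * ((u : ℝ) + (b F - δ)) ^ F.natDegree
          < ρ ^ F.natDegree * ((F.eval (a : ℤ) : ℤ) : ℝ) := by rw [← hFu]; exact hu1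
        _ < ρ ^ F.natDegree * (F.leadingCoeff * (a + (b F + δ)) ^ F.natDegree) :=
            mul_lt_mul_of_pos_left ha2 hρd
        _ = F.leadingCoeff * (ρ * (a + (b F + δ))) ^ F.natDegree := by rw [mul_pow]; ring
    have h2 := lt_of_mul_lt_mul_left h1 hA.le
    refine lt_of_pow_lt_pow_left₀ _ ?_ h2
    have : 0 < (a : ℝ) + (b F + δ) := by linarith
    positivity
  have e2 : ρ * (a + (b F - δ)) < (u : ℝ) + (b F + δ) := by
    have h1 : (F.leadingCoeff : ℝ) * (ρ * (a + (b F - δ))) ^ F.natDegree <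
        F.leadingCoeff * ((u : ℝ) + (b F + δ)) ^ F.natDegree := by
      calc (F.leadingCoeff : ℝ) * (ρ * (a + (b F - δ))) ^ F.natDegree
          = ρ ^ F.natDegree * (F.leadingCoeff * (a + (b F - δ)) ^ F.natDegree) := by
            rw [mul_pow]; ring
        _ < ρ ^ F.natDegree * ((F.eval (a : ℤ) : ℤ) : ℝ) := mul_lt_mul_of_pos_left ha1 hρd
        _ < F.leadingCoeff * ((u : ℝ) + (b F + δ)) ^ F.natDegree := by rw [← hFu]; exact hu2
    have h2 := lt_of_mul_lt_mul_left h1 hA.le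
    refine lt_of_pow_lt_pow_left₀ _ ?_ h2
    linarith
  rw [abs_lt]
  constructor
  · nlinarith
  · nlinarith

/-- the curve `l F(u) = k F(a)` contains no line with slope in `(0,1)` -/
lemma no_line (hpos : 0 < F.leadingCoeff)
    (hroots : ∃ z w : ℂ, z ≠ w ∧ aeval z F = 0 ∧ aeval w F = 0) (k l : ℕ) (hl : 0 < l)
    (ρ c : ℝ) (hρ0 : 0 < ρ) (hρ1 : ρ < 1)
    (hinf : {a : ℕ | (l : ℝ) * (P F).eval (ρ * a + c) = k * (P F).eval (a : ℝ)}.Infinite) : False := by
  -- polynomial identity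
  have hid : C (l : ℝ) * (P F).comp (C ρ * X + C c) = C (k : ℝ) * P F := by
    apply Polynomial.eq_of_infinite_eval_eq
    have himg : ((fun a : ℕ => (a : ℝ)) '' {a : ℕ | (l : ℝ) * (P F).eval (ρ * a + c)
        = k * (P F).eval (a : ℝ)}).Infinite := hinf.image (fun a _ b _ h => by exact_mod_cast h)
    refine himg.mono ?_
    rintro _ ⟨a, ha, rfl⟩
    simp only [Set.mem_ofPred_eq] at ha ⊢
    rw [eval_mul, eval_mul, eval_C, eval_C, eval_comp]
    simp only [eval_add, eval_mul, eval_C, eval_X]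
    exact ha
  have hF : F ≠ 0 := by rintro rfl; simp at hpos
  -- complex version
  set Q : ℂ[X] := F.map (Int.castRingHom ℂ) with hQ
  have hQP : Q = (P F).map Complex.ofRealHom := by
    rw [hQ, P, Polynomial.map_map]
    congr 1
  have hQ0 : Q ≠ 0 := (Polynomial.map_ne_zero_iff Int.cast_injective).mpr hF
  have hidC : C (l : ℂ) * Q.comp (C (ρ : ℂ) * X + C (c : ℂ)) = C (k : ℂ) * Q := by
    have := congrArg (Polynomial.map Complex.ofRealHom) hid
    rw [Polynomial.map_mul, Polynomial.map_mul, Polynomial.map_comp, ← hQP] at this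
    simpa using this
  obtain ⟨z, w, hne, hz, hw⟩ := hroots
  have hstep : ∀ y : ℂ, Q.IsRoot y → Q.IsRoot ((ρ : ℂ) * y + c) := by
    intro y hy
    have h1 := congrArg (Polynomial.eval y) hidC
    rw [eval_mul, eval_mul, eval_C, eval_C, eval_comp, IsRoot.def.mp hy, mul_zero] at h1
    simp only [eval_add, eval_mul, eval_C, eval_X] at h1
    have hl' : (l : ℂ) ≠ 0 := by exact_mod_cast hl.ne'
    rcases mul_eq_zero.mp h1 with h | h
    · exact absurd h hl'
    · exact h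
  let T : ℂ → ℂ := fun y => (ρ : ℂ) * y + c
  have hit : ∀ (n : ℕ) (y : ℂ), Q.IsRoot y → Q.IsRoot (T^[n] y) := by
    intro n
    induction n with
    | zero => intro y hy; exact hy
    | succ n ih =>
      intro y hy
      rw [Function.iterate_succ_apply']
      exact hstep _ (ih y hy)
  have hdiff : ∀ n : ℕ, T^[n] z - T^[n] w = (ρ : ℂ) ^ n * (z - w) := by
    intro n
    induction n with
    | zero => simp
    | succ n ih =>
      rw [Function.iterate_succ_apply', Function.iterate_succ_apply']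
      change ((ρ : ℂ) * T^[n] z + c) - ((ρ : ℂ) * T^[n] w + c) = _
      have : ((ρ : ℂ) * T^[n] z + c) - ((ρ : ℂ) * T^[n] w + c) = (ρ : ℂ) * (T^[n] z - T^[n] w) := by ring
      rw [this, ih, pow_succ]; ring
  have hfin : ((fun p : ℂ × ℂ => p.1 - p.2) ''
      ((Q.roots.toFinset ×ˢ Q.roots.toFinset : Finset (ℂ × ℂ)) : Set (ℂ × ℂ))).Finite :=
    (Finset.finite_toSet _).image _
  have hsub : Set.range (fun n : ℕ => (ρ : ℂ) ^ n * (z - w)) ⊆ (fun p : ℂ × ℂ => p.1 - p.2) ''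
      ((Q.roots.toFinset ×ˢ Q.roots.toFinset : Finset (ℂ × ℂ)) : Set (ℂ × ℂ)) := by
    rintro _ ⟨n, rfl⟩
    refine ⟨(T^[n] z, T^[n] w), ?_, hdiff n⟩
    rw [Finset.mem_coe, Finset.mem_product, Multiset.mem_toFinset, Multiset.mem_toFinset,
      mem_roots hQ0, mem_roots hQ0]
    exact ⟨hit n z (isRoot_map.mpr hz), hit n w (isRoot_map.mpr hw)⟩
  have hinj : Function.Injective (fun n : ℕ => (ρ : ℂ) ^ n * (z - w)) := by
    intro m n hmn
    have hzw : z - w ≠ 0 := sub_ne_zero.mpr hne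
    have h1 : (ρ : ℂ) ^ m = (ρ : ℂ) ^ n := mul_right_cancel₀ hzw hmn
    have h2 : ρ ^ m = ρ ^ n := by exact_mod_cast h1
    exact (pow_right_strictAnti₀ hρ0 hρ1).injective h2
  exact Set.infinite_range_of_injective hinj (hfin.subset hsub)

/-- distance of the multiples of an irrational number from the integers -/
lemma irr_gap (ρ : ℝ) (hρ : Irrational ρ) (S : ℕ) :
    ∃ η : ℝ, 0 < η ∧ ∀ s : ℕ, 1 ≤ s → s ≤ S → ∀ n : ℤ, η ≤ |ρ * s - n| := by
  induction S with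
  | zero => exact ⟨1, one_pos, fun s h1 h2 => by omega⟩
  | succ S ih =>
    obtain ⟨η, hη, h⟩ := ih
    have hne : (ρ * ((S + 1 : ℕ) : ℝ)) - round (ρ * ((S + 1 : ℕ) : ℝ)) ≠ 0 := by
      have h1 : Irrational (ρ * ((S + 1 : ℕ) : ℝ)) := by
        have := hρ.mul_natCast (m := S + 1) (by omega)
        exact this
      intro h2
      exact h1.ne_int _ (sub_eq_zero.mp h2)
    refine ⟨min η |ρ * ((S + 1 : ℕ) : ℝ) - round (ρ * ((S + 1 : ℕ) : ℝ))|,
      lt_min hη (abs_pos.mpr hne), fun s h1 h2 n => ?_⟩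
    rcases Nat.lt_or_ge s (S + 1) with h3 | h3
    · exact (min_le_left _ _).trans (h s h1 (by omega) n)
    · have : s = S + 1 := by omega
      subst this
      exact (min_le_right _ _).trans (round_le _ _)

/-- the set of `a` with a solution -/
def Sol (F : ℤ[X]) (k l : ℕ) : Set ℕ := {a | ∃ u : ℕ, (l : ℤ) * F.eval (u : ℤ) = (k : ℤ) * F.eval (a : ℤ)}

lemma sparse (hpos : 0 < F.leadingCoeff)
    (hroots : ∃ z w : ℂ, z ≠ w ∧ aeval z F = 0 ∧ aeval w F = 0) (k l : ℕ) (hk : 0 < k) (hkl : k < l)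
    (S : ℕ) : ∃ a₀ : ℕ, ∀ a a' : ℕ, a₀ ≤ a → a < a' → a ∈ Sol F k l → a' ∈ Sol F k l → S < a' - a := by
  have hd := two_le hpos hroots
  have hρ0 := rho_pos k l hk (by omega) (F := F)
  have hρ1 := rho_lt hd k l hkl (F := F)
  by_cases hirr : Irrational (rho F k l)
  · obtain ⟨η, hη, h⟩ := irr_gap _ hirr S
    obtain ⟨a₀, ha₀⟩ := approx hpos hd k l hk hkl (η / 4) (by positivity)
    refine ⟨a₀, fun a a' ha haa' hs hs' => ?_⟩
    by_contra hcon
    push Not at hcon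
    obtain ⟨u, hu⟩ := hs
    obtain ⟨u', hu'⟩ := hs'
    have h1 := ha₀ a u ha hu
    have h2 := ha₀ a' u' (by omega) hu'
    have h3 := h (a' - a) (by omega) hcon ((u' : ℤ) - u)
    have h4 : (((a' - a : ℕ) : ℝ)) = (a' : ℝ) - a := by
      rw [Nat.cast_sub haa'.le]
    rw [h4] at h3
    push_cast at h3
    have h5 : rho F k l * ((a' : ℝ) - a) - ((u' : ℝ) - u)
        = ((u : ℝ) + b F - rho F k l * (a + b F)) - ((u' : ℝ) + b F - rho F k l * (a' + b F)) := by ring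
    rw [h5] at h3
    have h6 := abs_sub ((u : ℝ) + b F - rho F k l * (a + b F)) ((u' : ℝ) + b F - rho F k l * (a' + b F))
    linarith
  · -- rational slope: finitely many solutions
    rw [Irrational] at hirr
    push Not at hirr
    obtain ⟨r, hr⟩ := hirr
    -- the intercept is rational
    obtain ⟨c, hc⟩ : ∃ c : ℚ, (c : ℝ) = (rho F k l - 1) * b F := by
      refine ⟨(r - 1) * ((F.coeff (F.natDegree - 1) : ℚ) / ((F.natDegree : ℚ) * (F.leadingCoeff : ℚ))), ?_⟩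
      rw [← hr, b]; push_cast; ring
    set D : ℕ := r.den * c.den with hD
    have hDpos : 0 < D := Nat.mul_pos r.den_pos c.den_pos
    have hDr : (0 : ℝ) < D := by exact_mod_cast hDpos
    obtain ⟨a₀, ha₀⟩ := approx hpos hd k l hk hkl (1 / (2 * D)) (by positivity)
    have hkey : ∀ a u : ℕ, a₀ ≤ a → (l : ℤ) * F.eval (u : ℤ) = (k : ℤ) * F.eval (a : ℤ) →
        (u : ℝ) = rho F k l * a + c := by
      intro a u ha hu
      have h1 := ha₀ a u ha hu
      have h2 : (u : ℝ) + b F - rho F k l * (a + b F) = (u : ℝ) - rho F k l * a - c := by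
        rw [hc]; ring
      rw [h2] at h1
      -- multiply by D
      have h3 : ∃ n : ℤ, (D : ℝ) * ((u : ℝ) - rho F k l * a - c) = n := by
        refine ⟨(D : ℤ) * u - r.num * c.den * a - c.num * r.den, ?_⟩
        have hr1 : (r : ℝ) * r.den = r.num := by exact_mod_cast r.mul_den_eq_num
        have hc1 : (c : ℝ) * c.den = c.num := by exact_mod_cast c.mul_den_eq_num
        rw [← hr, hD]
        push_cast
        linear_combination (-(c.den : ℝ) * a) * hr1 - (r.den : ℝ) * hc1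
      obtain ⟨n, hn⟩ := h3
      have h4 : |(n : ℝ)| < 1 := by
        rw [← hn, abs_mul, abs_of_pos hDr]
        calc (D : ℝ) * |(u : ℝ) - rho F k l * a - c| < D * (2 * (1 / (2 * D))) :=
              mul_lt_mul_of_pos_left h1 hDr
          _ = 1 := by field_simp
      have h5 : n = 0 := by
        have : |n| < 1 := by exact_mod_cast h4
        exact Int.abs_lt_one_iff.mp this
      rw [h5, Int.cast_zero] at hn
      rcases mul_eq_zero.mp hn with h6 | h6
      · exact absurd h6 hDr.ne'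
      · linarith
    have hfin : (Sol F k l).Finite := by
      by_contra hinf
      have hinf' : (Sol F k l).Infinite := hinf
      have hinf2 : (Sol F k l \ {a | a < a₀}).Infinite := hinf'.sdiff (Set.finite_lt_nat a₀)
      apply no_line hpos hroots k l (by omega) (rho F k l) c hρ0 hρ1
      refine hinf2.mono ?_
      rintro a ⟨⟨u, hu⟩, ha⟩
      have ha' : a₀ ≤ a := by simpa using ha
      have h1 := hkey a u ha' hu
      simp only [Set.mem_ofPred_eq]
      rw [← h1, P_eval, P_eval]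
      exact_mod_cast hu
    obtain ⟨B, hB⟩ := hfin.bddAbove
    refine ⟨B + 1, fun a a' ha _ hs _ => ?_⟩
    have := hB hs
    omega

/-! ### counting -/

open Classical in
lemma count_sparse (T : Set ℕ) (S a₀ : ℕ) (hS : 0 < S)
    (hT : ∀ a a' : ℕ, a₀ ≤ a → a < a' → a ∈ T → a' ∈ T → S < a' - a) (N : ℕ) :
    ((Icc 1 N).filter (fun a => a ∈ T)).card ≤ a₀ + (N / S + 1) := by
  have hsub : (Icc 1 N).filter (fun a => a ∈ T) ⊆
      range a₀ ∪ (Icc 1 N).filter (fun a => a ∈ T ∧ a₀ ≤ a) := by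
    intro a ha
    rw [Finset.mem_filter] at ha
    rw [Finset.mem_union, Finset.mem_range, Finset.mem_filter]
    by_cases h : a < a₀
    · exact Or.inl h
    · exact Or.inr ⟨ha.1, ha.2, by omega⟩
  refine (Finset.card_le_card hsub).trans ((Finset.card_union_le _ _).trans ?_)
  rw [Finset.card_range]
  apply Nat.add_le_add_left
  have hmaps : ∀ a ∈ (Icc 1 N).filter (fun a => a ∈ T ∧ a₀ ≤ a), a / S ∈ range (N / S + 1) := by
    intro a ha
    rw [Finset.mem_filter, Finset.mem_Icc] at ha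
    rw [Finset.mem_range]
    exact Nat.lt_succ_of_le (Nat.div_le_div_right ha.1.2)
  have hinj : Set.InjOn (fun a => a / S) ((Icc 1 N).filter (fun a => a ∈ T ∧ a₀ ≤ a) : Finset ℕ) := by
    have key : ∀ a a' : ℕ, a ∈ T → a₀ ≤ a → a' ∈ T → a₀ ≤ a' → a < a' → a / S ≠ a' / S := by
      intro a a' h1 h2 h3 _ h5 heq
      have h6 := hT a a' h2 h5 h1 h3
      have h7 : a + S ≤ a' := by omega
      have h8 : a / S + 1 ≤ a' / S := by
        rw [← Nat.add_div_right a hS]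
        exact Nat.div_le_div_right h7
      omega
    intro a ha a' ha' heq
    rw [Finset.mem_coe, Finset.mem_filter] at ha ha'
    rcases Nat.lt_trichotomy a a' with h | h | h
    · exact absurd heq (key a a' ha.2.1 ha.2.2 ha'.2.1 ha'.2.2 h)
    · exact h
    · exact absurd heq.symm (key a' a ha'.2.1 ha'.2.2 ha.2.1 ha.2.2 h)
  have := Finset.card_le_card_of_injOn _ hmaps hinj
  rwa [Finset.card_range] at this

/-- number of `a ≤ N` with `p ∣ F(a)` -/
lemma count_roots (p : ℕ) (hp : p.Prime) (hlc : F.leadingCoeff.natAbs < p) (hF : F.leadingCoeff ≠ 0)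
    (N : ℕ) : ((Icc 1 N).filter (fun a : ℕ => (p : ℤ) ∣ F.eval (a : ℤ))).card
      ≤ F.natDegree * (N / p + 1) := by
  have : Fact p.Prime := ⟨hp⟩
  set Q : (ZMod p)[X] := F.map (Int.castRingHom (ZMod p)) with hQ
  have hQ0 : Q ≠ 0 := by
    intro h
    have h1 : Q.coeff F.natDegree = 0 := by rw [h]; simp
    rw [hQ, coeff_map] at h1
    have h2 : ((F.leadingCoeff : ℤ) : ZMod p) = 0 := h1
    rw [ZMod.intCast_zmod_eq_zero_iff_dvd] at h2
    have h3 := Int.natAbs_dvd_natAbs.mpr h2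
    rw [Int.natAbs_natCast] at h3
    have h4 := Nat.le_of_dvd (Int.natAbs_pos.mpr hF) h3
    omega
  have hmaps : ∀ a ∈ (Icc 1 N).filter (fun a : ℕ => (p : ℤ) ∣ F.eval (a : ℤ)),
      ((a : ZMod p), a / p) ∈ Q.roots.toFinset ×ˢ range (N / p + 1) := by
    intro a ha
    rw [Finset.mem_filter, Finset.mem_Icc] at ha
    rw [Finset.mem_product, Multiset.mem_toFinset, mem_roots hQ0, Finset.mem_range]
    refine ⟨?_, Nat.lt_succ_of_le (Nat.div_le_div_right ha.1.2)⟩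
    rw [IsRoot.def, hQ, eval_map]
    have h1 : ((a : ℕ) : ZMod p) = (Int.castRingHom (ZMod p)) (a : ℤ) := by simp
    rw [h1, eval₂_at_apply]
    have h2 := (ZMod.intCast_zmod_eq_zero_iff_dvd (F.eval (a : ℤ)) p).mpr ha.2
    exact h2
  have hinj : Set.InjOn (fun a : ℕ => ((a : ZMod p), a / p))
      ((Icc 1 N).filter (fun a : ℕ => (p : ℤ) ∣ F.eval (a : ℤ)) : Finset ℕ) := by
    intro a _ a' _ heq
    simp only [Prod.mk.injEq] at heq
    have h1 : a % p = a' % p := (ZMod.natCast_eq_natCast_iff' a a' p).mp heq.1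
    rw [← Nat.div_add_mod a p, ← Nat.div_add_mod a' p, h1, heq.2]
  have h1 := Finset.card_le_card_of_injOn _ hmaps hinj
  rw [Finset.card_product, Finset.card_range] at h1
  refine h1.trans (Nat.mul_le_mul_right _ ?_)
  have h2 := Multiset.toFinset_card_le Q.roots
  have h3 := card_roots' Q
  have h4 : Q.natDegree ≤ F.natDegree := natDegree_map_le
  omega

lemma count_mult (q N : ℕ) : ((Icc 1 N).filter (fun h : ℕ => q ∣ h)).card = N / q := by
  have := Nat.Ioc_filter_dvd_card_eq_div N q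
  rw [← this]
  congr 1

/-- structure of numbers exceeding `M ^ y` -/
lemma large_factor (G M y : ℕ) (hG : 0 < G) (hM : 1 ≤ M) (h : M ^ y < G) :
    (∃ p, p.Prime ∧ y < p ∧ p ∣ G) ∨ (∃ p, p.Prime ∧ p ≤ y ∧ M < p ^ G.factorization p) := by
  by_contra hcon
  push Not at hcon
  obtain ⟨h1, h2⟩ := hcon
  have h3 : ∀ p ∈ G.primeFactors, p ≤ y ∧ p ^ G.factorization p ≤ M := by
    intro p hp
    have hpp := Nat.prime_of_mem_primeFactors hp
    have hpy : p ≤ y := by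
      by_contra hlt
      push Not at hlt
      exact h1 p hpp hlt (Nat.dvd_of_mem_primeFactors hp)
    exact ⟨hpy, h2 p hpp hpy⟩
  have h4 : G ≤ M ^ y := by
    calc G = ∏ p ∈ G.primeFactors, p ^ G.factorization p := by
          conv_lhs => rw [← Nat.prod_factorization_pow_eq_self hG.ne']
          rfl
      _ ≤ ∏ p ∈ G.primeFactors, M := Finset.prod_le_prod' (fun p hp => (h3 p hp).2)
      _ = M ^ G.primeFactors.card := by rw [Finset.prod_const]
      _ ≤ M ^ y := by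
          apply Nat.pow_le_pow_right hM
          have hsub : G.primeFactors ⊆ Icc 1 y := by
            intro p hp
            rw [Finset.mem_Icc]
            exact ⟨(Nat.prime_of_mem_primeFactors hp).one_lt.le, (h3 p hp).1⟩
          have := Finset.card_le_card hsub
          simpa using this
  omega

/-- the pairs with large gcd -/
def bad (F : ℤ[X]) (L N : ℕ) : Finset (ℕ × ℕ) :=
  (Icc 1 N ×ˢ Icc 1 N).filter (fun x => L < Int.gcd (F.eval (x.1 : ℤ)) (x.2 : ℤ))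

lemma tail (hpos : 0 < F.leadingCoeff) (y M N : ℕ) (hy : F.leadingCoeff.natAbs ≤ y) (hM : 1 ≤ M) :
    ((bad F (M ^ y) N).card : ℝ) ≤ (N : ℝ) ^ 2 * (2 * F.natDegree * (y : ℝ)⁻¹ + y / M) := by
  classical
  have hy0 : 0 < y := lt_of_lt_of_le (Int.natAbs_pos.mpr hpos.ne') hy
  -- exponents
  have hex : ∀ p : ℕ, p.Prime → ∃ j, M < p ^ j := fun p hp => ⟨M, Nat.lt_pow_self hp.one_lt⟩
  let q : ℕ → ℕ := fun p => if hp : p.Prime then p ^ (Nat.find (hex p hp)) else M + 1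
  have hq : ∀ p, M < q p := by
    intro p
    simp only [q]
    split_ifs with hp
    · exact Nat.find_spec (hex p hp)
    · omega
  -- the covering
  have hsub : bad F (M ^ y) N ⊆
      ((Ioc y N).filter Nat.Prime).biUnion (fun p =>
        ((Icc 1 N).filter (fun a : ℕ => (p : ℤ) ∣ F.eval (a : ℤ))) ×ˢ
          ((Icc 1 N).filter (fun h : ℕ => p ∣ h)))
      ∪ (Icc 1 y).biUnion (fun p => (Icc 1 N) ×ˢ ((Icc 1 N).filter (fun h : ℕ => q p ∣ h))) := by
    intro x hx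
    rw [bad, Finset.mem_filter, Finset.mem_product] at hx
    obtain ⟨⟨ha, hh⟩, hlt⟩ := hx
    set G := Int.gcd (F.eval (x.1 : ℤ)) (x.2 : ℤ) with hG
    have hG0 : 0 < G := by omega
    have hGh : G ∣ x.2 := by
      have := Int.gcd_dvd_right (F.eval (x.1 : ℤ)) (x.2 : ℤ)
      exact_mod_cast this
    have hGF : (G : ℤ) ∣ F.eval (x.1 : ℤ) := Int.gcd_dvd_left _ _
    rw [Finset.mem_union, Finset.mem_biUnion, Finset.mem_biUnion]
    rcases large_factor G M y hG0 hM hlt with ⟨p, hp, hyp, hpG⟩ | ⟨p, hp, hpy, hMp⟩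
    · left
      have hpx : p ∣ x.2 := hpG.trans hGh
      have hx2 := Finset.mem_Icc.mp hh
      have hpN : p ≤ N := (Nat.le_of_dvd (by omega) hpx).trans hx2.2
      refine ⟨p, Finset.mem_filter.mpr ⟨Finset.mem_Ioc.mpr ⟨hyp, hpN⟩, hp⟩, ?_⟩
      rw [Finset.mem_product, Finset.mem_filter, Finset.mem_filter]
      refine ⟨⟨ha, ?_⟩, ⟨hh, hpx⟩⟩
      exact (Int.natCast_dvd_natCast.mpr hpG).trans hGF
    · right
      refine ⟨p, Finset.mem_Icc.mpr ⟨hp.one_lt.le, hpy⟩, ?_⟩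
      rw [Finset.mem_product, Finset.mem_filter]
      refine ⟨ha, hh, ?_⟩
      simp only [q, dif_pos hp]
      have h1 : Nat.find (hex p hp) ≤ G.factorization p := Nat.find_min' _ hMp
      exact ((pow_dvd_pow p h1).trans (Nat.ordProj_dvd G p)).trans hGh
  have hcard := (Finset.card_le_card hsub).trans ((Finset.card_union_le _ _).trans
    (Nat.add_le_add Finset.card_biUnion_le Finset.card_biUnion_le))
  -- first sum
  have h1 : (∑ p ∈ (Ioc y N).filter Nat.Prime, ((((Icc 1 N).filter (fun a : ℕ => (p : ℤ) ∣ F.eval (a : ℤ))) ×ˢ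
          ((Icc 1 N).filter (fun h : ℕ => p ∣ h))).card : ℝ)) ≤ (N : ℝ) ^ 2 * (2 * F.natDegree * (y : ℝ)⁻¹) := by
    have h2 : ∀ p ∈ (Ioc y N).filter Nat.Prime, ((((Icc 1 N).filter (fun a : ℕ => (p : ℤ) ∣ F.eval (a : ℤ))) ×ˢ
          ((Icc 1 N).filter (fun h : ℕ => p ∣ h))).card : ℝ) ≤ 2 * F.natDegree * N ^ 2 * ((p : ℝ) ^ 2)⁻¹ := by
      intro p hp
      rw [Finset.mem_filter, Finset.mem_Ioc] at hp
      obtain ⟨⟨hyp, hpN⟩, hpp⟩ := hp
      have hpr : (0 : ℝ) < p := by exact_mod_cast hpp.pos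
      rw [Finset.card_product, count_mult]
      push_cast
      have h3 := count_roots p hpp (lt_of_le_of_lt hy hyp) hpos.ne' N
      have h4 : ((((Icc 1 N).filter (fun a : ℕ => (p : ℤ) ∣ F.eval (a : ℤ))).card : ℕ) : ℝ)
          ≤ F.natDegree * (((N / p : ℕ) : ℝ) + 1) := by exact_mod_cast h3
      have h5 : ((N / p : ℕ) : ℝ) ≤ (N : ℝ) / p := Nat.cast_div_le
      have h6 : (1 : ℝ) ≤ (N : ℝ) / p := by
        rw [le_div_iff₀ hpr, one_mul]; exact_mod_cast hpN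
      have h7 : (0 : ℝ) ≤ F.natDegree := by positivity
      calc ((((Icc 1 N).filter (fun a : ℕ => (p : ℤ) ∣ F.eval (a : ℤ))).card : ℕ) : ℝ) * ((N / p : ℕ) : ℝ)
          ≤ (F.natDegree * (((N / p : ℕ) : ℝ) + 1)) * ((N : ℝ) / p) := by
            apply mul_le_mul h4 h5 (by positivity) (by positivity)
        _ ≤ (F.natDegree * ((N : ℝ) / p + (N : ℝ) / p)) * ((N : ℝ) / p) := by
            apply mul_le_mul_of_nonneg_right _ (by positivity)
            apply mul_le_mul_of_nonneg_left _ h7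
            linarith
        _ = 2 * F.natDegree * N ^ 2 * ((p : ℝ) ^ 2)⁻¹ := by field_simp; ring
    refine (Finset.sum_le_sum h2).trans ?_
    rw [← Finset.mul_sum]
    have h8 : ∑ p ∈ (Ioc y N).filter Nat.Prime, ((p : ℝ) ^ 2)⁻¹ ≤ (y : ℝ)⁻¹ := by
      rcases Nat.lt_or_ge N y with hNy | hNy
      · rw [Finset.Ioc_eq_empty (by omega)]; simp
      · calc ∑ p ∈ (Ioc y N).filter Nat.Prime, ((p : ℝ) ^ 2)⁻¹
            ≤ ∑ p ∈ Ioc y N, ((p : ℝ) ^ 2)⁻¹ :=
              Finset.sum_le_sum_of_subset_of_nonneg (Finset.filter_subset _ _)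
                (fun i _ _ => by positivity)
          _ ≤ (y : ℝ)⁻¹ - (N : ℝ)⁻¹ := sum_Ioc_inv_sq_le_sub hy0.ne' hNy
          _ ≤ (y : ℝ)⁻¹ := by
              have : (0 : ℝ) ≤ (N : ℝ)⁻¹ := by positivity
              linarith
    calc 2 * (F.natDegree : ℝ) * N ^ 2 * ∑ p ∈ (Ioc y N).filter Nat.Prime, ((p : ℝ) ^ 2)⁻¹
        ≤ 2 * (F.natDegree : ℝ) * N ^ 2 * (y : ℝ)⁻¹ := mul_le_mul_of_nonneg_left h8 (by positivity)
      _ = (N : ℝ) ^ 2 * (2 * F.natDegree * (y : ℝ)⁻¹) := by ring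
  -- second sum
  have h2 : (∑ p ∈ Icc 1 y, (((Icc 1 N) ×ˢ ((Icc 1 N).filter (fun h : ℕ => q p ∣ h))).card : ℝ))
      ≤ (N : ℝ) ^ 2 * (y / M) := by
    have hMr : (0 : ℝ) < M := by exact_mod_cast hM
    have h3 : ∀ p ∈ Icc 1 y, (((Icc 1 N) ×ˢ ((Icc 1 N).filter (fun h : ℕ => q p ∣ h))).card : ℝ)
        ≤ (N : ℝ) ^ 2 / M := by
      intro p _
      rw [Finset.card_product, count_mult, Nat.card_Icc]
      push_cast
      have h5 : ((N / q p : ℕ) : ℝ) ≤ (N : ℝ) / M := by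
        have h6 : N / q p ≤ N / M := Nat.div_le_div_left (hq p).le (by omega)
        calc ((N / q p : ℕ) : ℝ) ≤ ((N / M : ℕ) : ℝ) := by exact_mod_cast h6
          _ ≤ (N : ℝ) / M := Nat.cast_div_le
      have h7 : ((N + 1 - 1 : ℕ) : ℝ) = N := by simp
      calc ((N + 1 - 1 : ℕ) : ℝ) * ((N / q p : ℕ) : ℝ) ≤ N * ((N : ℝ) / M) := by
            rw [h7]; exact mul_le_mul_of_nonneg_left h5 (by positivity)
        _ = (N : ℝ) ^ 2 / M := by ring
    refine (Finset.sum_le_sum h3).trans ?_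
    rw [Finset.sum_const, Nat.card_Icc, nsmul_eq_mul]
    simp only [Nat.add_sub_cancel]
    apply le_of_eq
    ring
  have h3 : ((bad F (M ^ y) N).card : ℝ) ≤
      (∑ p ∈ (Ioc y N).filter Nat.Prime, ((((Icc 1 N).filter (fun a : ℕ => (p : ℤ) ∣ F.eval (a : ℤ))) ×ˢ
          ((Icc 1 N).filter (fun h : ℕ => p ∣ h))).card : ℝ))
      + ∑ p ∈ Icc 1 y, (((Icc 1 N) ×ˢ ((Icc 1 N).filter (fun h : ℕ => q p ∣ h))).card : ℝ) := by
    exact_mod_cast hcard
  calc ((bad F (M ^ y) N).card : ℝ) ≤ _ := h3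
    _ ≤ (N : ℝ) ^ 2 * (2 * F.natDegree * (y : ℝ)⁻¹) + (N : ℝ) ^ 2 * (y / M) := add_le_add h1 h2
    _ = (N : ℝ) ^ 2 * (2 * F.natDegree * (y : ℝ)⁻¹ + y / M) := by ring

/-! ### visibility -/

/-- A pair `(a, h)` of positive integers is visible along `F` if `h = t F(a)` for a rational `t`
such that `a` is the least positive integer `u` for which `t F(u)` is a positive integer. -/
def Visible (F : ℤ[X]) (a h : ℕ) : Prop :=
  ∃ t : ℚ, (h : ℚ) = t * (F.eval (a : ℤ) : ℤ) ∧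
    IsLeast {u : ℕ | 0 < u ∧ ∃ n : ℕ, 0 < n ∧ t * (F.eval (u : ℤ) : ℤ) = n} a

lemma invisible_cover (a₁ : ℕ)
    (ha₁ : ∀ a, a₁ ≤ a → 0 < F.eval (a : ℤ) ∧ ∀ u : ℕ, u < a → F.eval (u : ℤ) < F.eval (a : ℤ))
    (a h : ℕ) (ha0 : 0 < a) (ha : a₁ ≤ a) (hh : 0 < h) (hinv : ¬ Visible F a h) (L : ℕ) :
    (∃ k l : ℕ, 0 < k ∧ k < l ∧ l ≤ L ∧ a ∈ Sol F k l) ∨ L < Int.gcd (F.eval (a : ℤ)) (h : ℤ) := by
  obtain ⟨hFa, hrec⟩ := ha₁ a ha
  have hFaq : ((F.eval (a : ℤ) : ℤ) : ℚ) ≠ 0 := by exact_mod_cast hFa.ne'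
  set t : ℚ := (h : ℚ) / (F.eval (a : ℤ) : ℤ) with ht
  have hta : (h : ℚ) = t * (F.eval (a : ℤ) : ℤ) := by rw [ht]; field_simp
  have hmem : a ∈ {u : ℕ | 0 < u ∧ ∃ n : ℕ, 0 < n ∧ t * (F.eval (u : ℤ) : ℤ) = n} :=
    ⟨ha0, h, hh, hta.symm⟩
  have hnl : ¬ a ∈ lowerBounds {u : ℕ | 0 < u ∧ ∃ n : ℕ, 0 < n ∧ t * (F.eval (u : ℤ) : ℤ) = n} :=
    fun hl => hinv ⟨t, hta, hmem, hl⟩
  rw [mem_lowerBounds] at hnl
  push Not at hnl
  obtain ⟨u, ⟨_, n, hn, hun⟩, hua⟩ := hnl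
  have hFu := hrec u hua
  have heq : (h : ℤ) * F.eval (u : ℤ) = (n : ℤ) * F.eval (a : ℤ) := by
    have : (h : ℚ) * (F.eval (u : ℤ) : ℤ) = n * (F.eval (a : ℤ) : ℤ) := by
      rw [← hun, ht]; field_simp
    exact_mod_cast this
  set g := Nat.gcd n h with hg
  have hg0 : 0 < g := Nat.gcd_pos_of_pos_left _ hn
  obtain ⟨k, hk⟩ := Nat.gcd_dvd_left n h
  obtain ⟨l, hl⟩ := Nat.gcd_dvd_right n h
  rw [← hg] at hk hl
  have hcop : Nat.Coprime k l := by
    have h1 := Nat.coprime_div_gcd_div_gcd (m := n) (n := h) hg0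
    rw [← hg] at h1
    rwa [Nat.div_eq_of_eq_mul_right hg0 hk, Nat.div_eq_of_eq_mul_right hg0 hl] at h1
  have hk0 : 0 < k := by
    rcases Nat.eq_zero_or_pos k with h | h
    · rw [h] at hk; omega
    · exact h
  have hl0 : 0 < l := by
    rcases Nat.eq_zero_or_pos l with h' | h'
    · rw [h'] at hl; omega
    · exact h'
  have heq2 : (l : ℤ) * F.eval (u : ℤ) = (k : ℤ) * F.eval (a : ℤ) := by
    have hg' : (g : ℤ) ≠ 0 := by exact_mod_cast hg0.ne'
    apply mul_left_cancel₀ hg'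
    have e1 : (h : ℤ) = g * l := by exact_mod_cast hl
    have e2 : (n : ℤ) = g * k := by exact_mod_cast hk
    rw [e1, e2] at heq
    linarith
  have hkl : k < l := by
    have h1 : (l : ℤ) * F.eval (u : ℤ) < l * F.eval (a : ℤ) := by
      apply mul_lt_mul_of_pos_left hFu
      exact_mod_cast hl0
    rw [heq2] at h1
    have h2 := lt_of_mul_lt_mul_right h1 hFa.le
    exact_mod_cast h2
  rcases Nat.lt_or_ge L l with hL | hL
  · right
    have hlF : (l : ℤ) ∣ F.eval (a : ℤ) := by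
      have h1 : (l : ℤ) ∣ (k : ℤ) * F.eval (a : ℤ) := ⟨_, heq2.symm⟩
      have h2 : IsCoprime (l : ℤ) (k : ℤ) := (Nat.isCoprime_iff_coprime.mpr hcop).symm
      exact h2.dvd_of_dvd_mul_left h1
    have hlh : (l : ℤ) ∣ (h : ℤ) := by exact_mod_cast (⟨g, by rw [hl]; ring⟩ : l ∣ h)
    have h3 : l ∣ Int.gcd (F.eval (a : ℤ)) (h : ℤ) := by
      have := Int.dvd_coe_gcd hlF hlh
      exact_mod_cast this
    have h4 : 0 < Int.gcd (F.eval (a : ℤ)) (h : ℤ) := Int.gcd_pos_of_ne_zero_left _ hFa.ne'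
    exact lt_of_lt_of_le hL (Nat.le_of_dvd h4 h3)
  · left
    exact ⟨k, l, hk0, hkl, hL, ⟨u, heq2⟩⟩

open Classical in
lemma invisible_bound (hpos : 0 < F.leadingCoeff)
    (hroots : ∃ z w : ℂ, z ≠ w ∧ aeval z F = 0 ∧ aeval w F = 0) (ε : ℝ) (hε : 0 < ε) :
    ∃ K : ℝ, ∀ N : ℕ, (((Icc 1 N ×ˢ Icc 1 N).filter (fun x => ¬ Visible F x.1 x.2)).card : ℝ)
      ≤ K * N + ε * (N : ℝ) ^ 2 := by
  have hd := two_le hpos hroots
  obtain ⟨a₁, ha₁⟩ := eventually_record hpos hd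
  -- choose y
  obtain ⟨y, hy⟩ : ∃ y : ℕ, (max (F.leadingCoeff.natAbs : ℝ) (8 * F.natDegree / ε)) ≤ y :=
    exists_nat_ge _
  have hy1 : F.leadingCoeff.natAbs ≤ y := by
    have := (le_max_left _ _).trans hy
    exact_mod_cast this
  have hy0 : 0 < y := lt_of_lt_of_le (Int.natAbs_pos.mpr hpos.ne') hy1
  have hyr : (0 : ℝ) < y := by exact_mod_cast hy0
  have hy2 : 2 * F.natDegree * (y : ℝ)⁻¹ ≤ ε / 4 := by
    have h1 := (le_max_right _ _).trans hy
    rw [div_le_iff₀ hε] at h1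
    rw [← div_eq_mul_inv, div_le_iff₀ hyr]
    linarith
  obtain ⟨M, hM⟩ : ∃ M : ℕ, max 1 (4 * y / ε) ≤ (M : ℝ) := exists_nat_ge _
  have hM1 : 1 ≤ M := by
    have := (le_max_left _ _).trans hM
    exact_mod_cast this
  have hMr : (0 : ℝ) < M := by exact_mod_cast hM1
  have hM2 : (y : ℝ) / M ≤ ε / 4 := by
    have h1 := (le_max_right _ _).trans hM
    rw [div_le_iff₀ hε] at h1
    rw [div_le_iff₀ hMr]
    linarith
  set L := M ^ y with hL
  obtain ⟨S, hS⟩ : ∃ S : ℕ, max 1 (4 * ((L + 1 : ℕ) : ℝ) ^ 2 / ε) ≤ (S : ℝ) := exists_nat_ge _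
  have hS1 : 0 < S := by
    have := (le_max_left _ _).trans hS
    exact_mod_cast (lt_of_lt_of_le one_pos this)
  have hSr : (0 : ℝ) < S := by exact_mod_cast hS1
  have hS2 : ((L + 1 : ℕ) : ℝ) ^ 2 / S ≤ ε / 4 := by
    have h1 := (le_max_right _ _).trans hS
    rw [div_le_iff₀ hε] at h1
    rw [div_le_iff₀ hSr]
    linarith
  have hsp := fun (k l : ℕ) (hk : 0 < k) (hkl : k < l) => sparse hpos hroots k l hk hkl S
  choose! a₀ ha₀ using hsp
  set Pr := (range (L + 1) ×ˢ range (L + 1)).filter (fun x => 0 < x.1 ∧ x.1 < x.2) with hPr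
  refine ⟨a₁ + ∑ x ∈ Pr, ((a₀ x.1 x.2 : ℝ) + 1), fun N => ?_⟩
  have hcover : (Icc 1 N ×ˢ Icc 1 N).filter (fun x => ¬ Visible F x.1 x.2) ⊆
      (range a₁ ×ˢ Icc 1 N) ∪ (Pr.biUnion (fun x => ((Icc 1 N).filter (fun a => a ∈ Sol F x.1 x.2)) ×ˢ Icc 1 N)
        ∪ bad F L N) := by
    intro x hx
    rw [Finset.mem_filter, Finset.mem_product, Finset.mem_Icc, Finset.mem_Icc] at hx
    obtain ⟨⟨ha, hh⟩, hinv⟩ := hx
    rw [Finset.mem_union, Finset.mem_union, Finset.mem_product, Finset.mem_range, Finset.mem_Icc,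
      Finset.mem_biUnion, bad, Finset.mem_filter, Finset.mem_product, Finset.mem_Icc, Finset.mem_Icc]
    by_cases hlt : x.1 < a₁
    · exact Or.inl ⟨hlt, hh⟩
    · right
      rcases invisible_cover a₁ ha₁ x.1 x.2 (by omega) (by omega) (by omega) hinv L with
        ⟨k, l, hk, hkl, hlL, hsol⟩ | hb
      · left
        refine ⟨(k, l), ?_, ?_⟩
        · rw [hPr, Finset.mem_filter, Finset.mem_product, Finset.mem_range, Finset.mem_range]
          exact ⟨⟨by dsimp only; omega, by dsimp only; omega⟩, hk, hkl⟩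
        · rw [Finset.mem_product, Finset.mem_filter, Finset.mem_Icc, Finset.mem_Icc]
          exact ⟨⟨ha, hsol⟩, hh⟩
      · right
        exact ⟨⟨ha, hh⟩, hb⟩
  have hcard := (Finset.card_le_card hcover).trans ((Finset.card_union_le _ _).trans
    (Nat.add_le_add_left ((Finset.card_union_le _ _).trans
      (Nat.add_le_add_right Finset.card_biUnion_le _)) _))
  have hcard' : (((Icc 1 N ×ˢ Icc 1 N).filter (fun x => ¬ Visible F x.1 x.2)).card : ℝ) ≤
      ((range a₁ ×ˢ Icc 1 N).card : ℝ) + ((∑ x ∈ Pr, ((((Icc 1 N).filter (fun a => a ∈ Sol F x.1 x.2)) ×ˢ Icc 1 N).card : ℝ))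
        + (bad F L N).card) := by
    exact_mod_cast hcard
  have e1 : ((range a₁ ×ˢ Icc 1 N).card : ℝ) = a₁ * N := by
    rw [Finset.card_product, Finset.card_range, Nat.card_Icc]; push_cast; simp
  have e2 : ∀ x ∈ Pr, ((((Icc 1 N).filter (fun a => a ∈ Sol F x.1 x.2)) ×ˢ Icc 1 N).card : ℝ)
      ≤ ((a₀ x.1 x.2 : ℝ) + 1) * N + (N : ℝ) ^ 2 / S := by
    intro x hx
    rw [hPr, Finset.mem_filter] at hx
    have h1 := count_sparse (Sol F x.1 x.2) S (a₀ x.1 x.2) hS1 (ha₀ x.1 x.2 hx.2.1 hx.2.2) N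
    rw [Finset.card_product, Nat.card_Icc]
    have h2 : ((((Icc 1 N).filter (fun a => a ∈ Sol F x.1 x.2)).card : ℕ) : ℝ)
        ≤ (a₀ x.1 x.2 : ℝ) + ((N / S : ℕ) + 1) := by exact_mod_cast h1
    have h3 : ((N / S : ℕ) : ℝ) ≤ (N : ℝ) / S := Nat.cast_div_le
    push_cast
    have hN : (0 : ℝ) ≤ N := by positivity
    have h4 : ((N + 1 - 1 : ℕ) : ℝ) = N := by simp
    calc ((((Icc 1 N).filter (fun a => a ∈ Sol F x.1 x.2)).card : ℕ) : ℝ) * ((N + 1 - 1 : ℕ) : ℝ)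
        ≤ ((a₀ x.1 x.2 : ℝ) + ((N : ℝ) / S + 1)) * N := by
          rw [h4]; apply mul_le_mul_of_nonneg_right _ hN; linarith
      _ = ((a₀ x.1 x.2 : ℝ) + 1) * N + (N : ℝ) ^ 2 / S := by ring
  have e3 : (Pr.card : ℝ) ≤ ((L + 1 : ℕ) : ℝ) ^ 2 := by
    have h1 : Pr.card ≤ (L + 1) * (L + 1) := by
      have := Finset.card_filter_le (range (L + 1) ×ˢ range (L + 1)) (fun x => 0 < x.1 ∧ x.1 < x.2)
      rwa [Finset.card_product, Finset.card_range] at this
    calc (Pr.card : ℝ) ≤ (((L + 1) * (L + 1) : ℕ) : ℝ) := by exact_mod_cast h1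
      _ = ((L + 1 : ℕ) : ℝ) ^ 2 := by push_cast; ring
  have e4 := tail hpos y M N hy1 hM1
  rw [← hL] at e4
  have e5 : ∑ x ∈ Pr, ((((Icc 1 N).filter (fun a => a ∈ Sol F x.1 x.2)) ×ˢ Icc 1 N).card : ℝ)
      ≤ (∑ x ∈ Pr, ((a₀ x.1 x.2 : ℝ) + 1)) * N + ε / 4 * (N : ℝ) ^ 2 := by
    refine (Finset.sum_le_sum e2).trans ?_
    rw [Finset.sum_add_distrib, Finset.sum_mul, Finset.sum_const, nsmul_eq_mul]
    have h1 : (Pr.card : ℝ) * ((N : ℝ) ^ 2 / S) ≤ ε / 4 * (N : ℝ) ^ 2 := by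
      calc (Pr.card : ℝ) * ((N : ℝ) ^ 2 / S) ≤ ((L + 1 : ℕ) : ℝ) ^ 2 * ((N : ℝ) ^ 2 / S) :=
            mul_le_mul_of_nonneg_right e3 (by positivity)
        _ = (((L + 1 : ℕ) : ℝ) ^ 2 / S) * (N : ℝ) ^ 2 := by ring
        _ ≤ ε / 4 * (N : ℝ) ^ 2 := mul_le_mul_of_nonneg_right hS2 (by positivity)
    linarith
  have e6 : (N : ℝ) ^ 2 * (2 * F.natDegree * (y : ℝ)⁻¹ + y / M) ≤ (N : ℝ) ^ 2 * (ε / 4 + ε / 4) :=
    mul_le_mul_of_nonneg_left (add_le_add hy2 hM2) (by positivity)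
  have hfin : (a₁ : ℝ) * N + ((∑ x ∈ Pr, ((a₀ x.1 x.2 : ℝ) + 1)) * N + ε / 4 * (N : ℝ) ^ 2
      + (N : ℝ) ^ 2 * (ε / 4 + ε / 4)) ≤ ((a₁ : ℝ) + ∑ x ∈ Pr, ((a₀ x.1 x.2 : ℝ) + 1)) * N + ε * (N : ℝ) ^ 2 := by
    have : 0 ≤ ε * (N : ℝ) ^ 2 := by positivity
    nlinarith
  calc (((Icc 1 N ×ˢ Icc 1 N).filter (fun x => ¬ Visible F x.1 x.2)).card : ℝ) ≤ _ := hcard'
    _ ≤ (a₁ : ℝ) * N + ((∑ x ∈ Pr, ((a₀ x.1 x.2 : ℝ) + 1)) * N + ε / 4 * (N : ℝ) ^ 2
      + (N : ℝ) ^ 2 * (ε / 4 + ε / 4)) := by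
        rw [e1]
        have := e4.trans e6
        linarith
    _ ≤ _ := hfin

open Classical in
/-- The lattice points that are visible along a polynomial with at least two distinct roots have
density one. -/
theorem result (F : ℤ[X]) (hpos : 0 < F.leadingCoeff)
    (hroots : ∃ z w : ℂ, z ≠ w ∧ aeval z F = 0 ∧ aeval w F = 0) :
    Tendsto (fun N : ℕ =>
      (((Icc 1 N ×ˢ Icc 1 N).filter (fun x => Visible F x.1 x.2)).card : ℝ) / (N : ℝ) ^ 2)
      atTop (𝓝 1) := by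
  rw [Metric.tendsto_atTop]
  intro ε hε
  obtain ⟨K, hK⟩ := invisible_bound hpos hroots (ε / 2 / 2) (by positivity)
  obtain ⟨N₀, hN₀⟩ : ∃ N₀ : ℕ, max 1 (4 * K / ε) ≤ (N₀ : ℝ) := exists_nat_ge _
  refine ⟨N₀, fun N hN => ?_⟩
  have hNr : (N₀ : ℝ) ≤ N := by exact_mod_cast hN
  have hN1 : (1 : ℝ) ≤ N := ((le_max_left _ _).trans hN₀).trans hNr
  have hN2 : 4 * K / ε ≤ (N : ℝ) := ((le_max_right _ _).trans hN₀).trans hNr
  have hN0 : (0 : ℝ) < N := by linarith
  have hsum : (((Icc 1 N ×ˢ Icc 1 N).filter (fun x => Visible F x.1 x.2)).card : ℝ)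
      + (((Icc 1 N ×ˢ Icc 1 N).filter (fun x => ¬ Visible F x.1 x.2)).card : ℝ) = (N : ℝ) ^ 2 := by
    have h1 := Finset.card_filter_add_card_filter_not (s := Icc 1 N ×ˢ Icc 1 N) (fun x => Visible F x.1 x.2)
    have h2 : (Icc 1 N ×ˢ Icc 1 N).card = N * N := by
      rw [Finset.card_product, Nat.card_Icc]; simp
    rw [h2] at h1
    have h3 : (((Icc 1 N ×ˢ Icc 1 N).filter (fun x => Visible F x.1 x.2)).card : ℝ)
      + (((Icc 1 N ×ˢ Icc 1 N).filter (fun x => ¬ Visible F x.1 x.2)).card : ℝ) = ((N * N : ℕ) : ℝ) := by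
      exact_mod_cast h1
    rw [h3]; push_cast; ring
  have hinv := hK N
  set V := (((Icc 1 N ×ˢ Icc 1 N).filter (fun x => Visible F x.1 x.2)).card : ℝ) with hV
  set I := (((Icc 1 N ×ˢ Icc 1 N).filter (fun x => ¬ Visible F x.1 x.2)).card : ℝ) with hI
  have hI0 : 0 ≤ I := by positivity
  have hKN : K * N ≤ ε / 4 * (N : ℝ) ^ 2 := by
    rw [div_le_iff₀ hε] at hN2
    have : K ≤ ε / 4 * N := by linarith
    calc K * N ≤ (ε / 4 * N) * N := mul_le_mul_of_nonneg_right this hN0.le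
      _ = ε / 4 * (N : ℝ) ^ 2 := by ring
  have hN2pos : (0 : ℝ) < (N : ℝ) ^ 2 := by positivity
  rw [Real.dist_eq]
  have h1 : V / (N : ℝ) ^ 2 - 1 = -(I / (N : ℝ) ^ 2) := by
    field_simp
    linarith
  rw [h1, abs_neg, abs_of_nonneg (by positivity), div_lt_iff₀ hN2pos]
  nlinarith

end Pool.Agent.Results.MP_543a09_nt.VisibleDensity
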